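import Pool.Agent.Work.MP_2738db_nt_Y_helper31.SQF

/-!
Block M4 (helper15), part A: the structure of `y ^ 4 + c ^ k = x ^ 4`, `k ≥ 2`.
-/

set_option autoImplicit false

namespace Pool.Agent.Work.MP_2738db_nt_ZZ.helper15

open Pool.Agent.Work.MP_2738db_nt_Y

/-- the three shapes -/
def Rel (t A B k W : ℕ) : Prop :=
  (t = 0 ∧ 2 * W ^ k = A ^ (2 * k) + B ^ (2 * k) ∧ A < B) ∨
  (t = 1 ∧ 64 * W ^ k = 64 * A ^ (2 * k) + B ^ (2 * k) ∧ 8 * A ^ k < B ^ k) ∨
  (t = 2 ∧ 64 * W ^ k = A ^ (2 * k) + 64 * B ^ (2 * k) ∧ A ^ k < 8 * B ^ k)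

theorem odd_of_even_sub {x y : ℕ} (hxy : Nat.Coprime x y) (h : (x + y) % 2 = 0) :
    x % 2 = 1 ∧ y % 2 = 1 := by
  rcases Nat.mod_two_eq_zero_or_one x with hx | hx
  · have hy : y % 2 = 0 := by omega
    have h2 : 2 ∣ Nat.gcd x y := Nat.dvd_gcd (Nat.dvd_of_mod_eq_zero hx) (Nat.dvd_of_mod_eq_zero hy)
    rw [hxy] at h2
    omega
  · exact ⟨hx, by omega⟩

theorem par_of_sq {x y : ℕ} (h : (x ^ 2 + y ^ 2) % 2 = 0) : (x + y) % 2 = 0 := by
  rcases Nat.mod_two_eq_zero_or_one x with hx | hx <;>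
  rcases Nat.mod_two_eq_zero_or_one y with hy | hy <;>
  simp_all [Nat.add_mod, Nat.pow_mod]

theorem sq_mod8 {x : ℕ} (hx : x % 2 = 1) : x ^ 2 % 8 = 1 := by
  have : x % 8 = 1 ∨ x % 8 = 3 ∨ x % 8 = 5 ∨ x % 8 = 7 := by omega
  rw [Nat.pow_mod]
  rcases this with h | h | h | h <;> rw [h]

theorem four_dvd_pow {v k : ℕ} (hv : v % 2 = 0) (hk : 2 ≤ k) : 4 ∣ v ^ k := by
  have h2 : 2 ∣ v := Nat.dvd_of_mod_eq_zero hv
  have h4 : 2 ^ 2 ∣ v ^ 2 := pow_dvd_pow_of_dvd h2 2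
  exact (by simpa using h4 : 4 ∣ v ^ 2).trans (pow_dvd_pow v hk)

theorem even_of_pow {v k : ℕ} (h : v ^ k % 2 = 0) : v % 2 = 0 := by
  have h2 : 2 ∣ v ^ k := Nat.dvd_of_mod_eq_zero h
  exact Nat.mod_eq_zero_of_dvd (Nat.prime_two.dvd_of_dvd_pow h2)

/-- the second even case -/
theorem shape_even {x y c k v U : ℕ} (hy : 1 ≤ y) (hyx : y < x) (hxy : Nat.Coprime x y)
    (hk : 2 ≤ k) (hU : 1 ≤ U) (hv : 1 ≤ v) (h1 : x ^ 2 = y ^ 2 + 2 ^ (k - 1) * v ^ k)
    (h2 : x ^ 2 + y ^ 2 = 2 * U ^ k) (hc : c = 2 * v * U) :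
    ∃ A B W t : ℕ, c = A * B * W ∧ 1 ≤ A ∧ 1 ≤ B ∧ 1 ≤ W ∧ t < 3 ∧ Rel t A B k W := by
  have hk0 : k ≠ 0 := by omega
  -- parity
  have hxy2 : (x ^ 2 + y ^ 2) % 2 = 0 := by rw [h2]; omega
  have hpar : (x + y) % 2 = 0 := par_of_sq hxy2
  obtain ⟨hxo, hyo⟩ := odd_of_even_sub hxy hpar
  obtain ⟨p, hp⟩ : ∃ p, x = y + 2 * p := ⟨(x - y) / 2, by omega⟩
  obtain ⟨q, hq⟩ : ∃ q, q = y + p := ⟨_, rfl⟩
  have hxq : x = q + p := by omega
  have hyq : q = y + p := hq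
  have hp1 : 1 ≤ p := by omega
  have hpq : Nat.Coprime p q := by
    have hd : Nat.gcd p q ∣ Nat.gcd x y := by
      refine Nat.dvd_gcd ?_ ?_
      · rw [hxq]; exact dvd_add (Nat.gcd_dvd_right p q) (Nat.gcd_dvd_left p q)
      · have h3 : Nat.gcd p q ∣ y + p := hyq ▸ Nat.gcd_dvd_right p q
        exact (Nat.dvd_add_left (Nat.gcd_dvd_left p q)).mp h3
    rw [hxy] at hd
    exact Nat.dvd_one.mp hd
  have h8 : 8 * (p * q) = (2 * v) ^ k := by
    have e1 : x ^ 2 = y ^ 2 + 4 * (p * q) := by rw [hp, hq]; ring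
    have e2 : 4 * (p * q) = 2 ^ (k - 1) * v ^ k := by omega
    have e3 : (2:ℕ) ^ k = 2 * 2 ^ (k - 1) := by
      rw [← pow_succ']; congr 1; omega
    rw [mul_pow, e3]
    calc 8 * (p * q) = 2 * (4 * (p * q)) := by ring
      _ = 2 * (2 ^ (k - 1) * v ^ k) := by rw [e2]
      _ = _ := by ring
  have hW : U ^ k = p ^ 2 + q ^ 2 := by
    have e1 : x ^ 2 + y ^ 2 = 2 * (p ^ 2 + q ^ 2) := by
      have hyy : y = q - p := by omega
      have hqp : p ≤ q := by omega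
      rw [hxq]
      obtain ⟨r, hr⟩ : ∃ r, q = p + r := ⟨q - p, by omega⟩
      have hyr : y = r := by omega
      rw [hyr, hr]; ring
    omega
  have hpq2 : p < q := by omega
  rcases Nat.mod_two_eq_zero_or_one p with hpe | hpo
  · -- p even, q odd
    have hqo : q % 2 = 1 := by omega
    have hcop : Nat.Coprime q (8 * p) := by
      refine Nat.Coprime.mul_right ?_ hpq.symm
      have : Nat.Coprime q 2 := (Nat.coprime_two_right).mpr (Nat.odd_iff.mpr hqo)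
      exact (this.pow_right 3)
    have hmul : q * (8 * p) = (2 * v) ^ k := by rw [← h8]; ring
    obtain ⟨u, hu⟩ := exists_eq_pow_of_mul_eq_pow (Nat.isUnit_iff.mpr hcop) hmul
    obtain ⟨V, hV⟩ := exists_eq_pow_of_mul_eq_pow
      (Nat.isUnit_iff.mpr (hcop.symm)) ((mul_comm _ _).trans hmul)
    have hu1 : 1 ≤ u := by
      rcases Nat.eq_zero_or_pos u with h | h
      · rw [h, zero_pow hk0] at hu; omega
      · exact h
    have hV1 : 1 ≤ V := by
      rcases Nat.eq_zero_or_pos V with h | h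
      · rw [h, zero_pow hk0] at hV; omega
      · exact h
    have hvV : 2 * v = u * V := by
      have : (2 * v) ^ k = (u * V) ^ k := by rw [mul_pow u V k, ← hu, ← hV, hmul]
      exact Nat.pow_left_injective hk0 this
    refine ⟨V, u, U, 2, ?_, hV1, hu1, hU, by norm_num, Or.inr (Or.inr ⟨rfl, ?_, ?_⟩)⟩
    · rw [hc, hvV]; ring
    · have e1 : V ^ (2 * k) = (8 * p) ^ 2 := by rw [hV, ← pow_mul, mul_comm]
      have e2 : u ^ (2 * k) = q ^ 2 := by rw [hu, ← pow_mul, mul_comm]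
      rw [hW, e1, e2]; ring
    · rw [← hV, ← hu]; omega
  · -- p odd
    have hcop : Nat.Coprime p (8 * q) := by
      refine Nat.Coprime.mul_right ?_ hpq
      have : Nat.Coprime p 2 := (Nat.coprime_two_right).mpr (Nat.odd_iff.mpr hpo)
      exact (this.pow_right 3)
    have hmul : p * (8 * q) = (2 * v) ^ k := by rw [← h8]; ring
    obtain ⟨u, hu⟩ := exists_eq_pow_of_mul_eq_pow (Nat.isUnit_iff.mpr hcop) hmul
    obtain ⟨V, hV⟩ := exists_eq_pow_of_mul_eq_pow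
      (Nat.isUnit_iff.mpr (hcop.symm)) ((mul_comm _ _).trans hmul)
    have hu1 : 1 ≤ u := by
      rcases Nat.eq_zero_or_pos u with h | h
      · rw [h, zero_pow hk0] at hu; omega
      · exact h
    have hV1 : 1 ≤ V := by
      rcases Nat.eq_zero_or_pos V with h | h
      · rw [h, zero_pow hk0] at hV; omega
      · exact h
    have hvV : 2 * v = u * V := by
      have : (2 * v) ^ k = (u * V) ^ k := by rw [mul_pow u V k, ← hu, ← hV, hmul]
      exact Nat.pow_left_injective hk0 this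
    refine ⟨u, V, U, 1, ?_, hu1, hV1, hU, by norm_num, Or.inr (Or.inl ⟨rfl, ?_, ?_⟩)⟩
    · rw [hc, hvV]
    · have e1 : V ^ (2 * k) = (8 * q) ^ 2 := by rw [hV, ← pow_mul, mul_comm]
      have e2 : u ^ (2 * k) = p ^ 2 := by rw [hu, ← pow_mul, mul_comm]
      rw [hW, e1, e2]; ring
    · rw [← hV, ← hu]; omega

theorem shape {x y c k : ℕ} (hy : 1 ≤ y) (hxy : Nat.Coprime x y) (hk : 2 ≤ k) (hc : 1 ≤ c)
    (h : y ^ 4 + c ^ k = x ^ 4) :
    ∃ A B W t : ℕ, c = A * B * W ∧ 1 ≤ A ∧ 1 ≤ B ∧ 1 ≤ W ∧ t < 3 ∧ Rel t A B k W := by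
  have hk0 : k ≠ 0 := by omega
  have hck : 1 ≤ c ^ k := Nat.one_le_pow _ _ hc
  have hyx : y < x := by
    by_contra hcon
    push Not at hcon
    have := Nat.pow_le_pow_left hcon 4
    omega
  have hsq : y ^ 2 < x ^ 2 := Nat.pow_lt_pow_left hyx (by norm_num)
  have hcop2 : Nat.Coprime (x ^ 2) (y ^ 2) := Nat.Coprime.pow 2 2 hxy
  have h' : (y ^ 2) ^ 2 + c ^ k = (x ^ 2) ^ 2 := by
    rw [← pow_mul, ← pow_mul]; exact h
  have hy2 : 1 ≤ y ^ 2 := Nat.one_le_pow _ _ hy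
  have hprod : c ^ k = (x ^ 2 - y ^ 2) * (x ^ 2 + y ^ 2) := by
    obtain ⟨d, hd⟩ : ∃ d, x ^ 2 = y ^ 2 + d := ⟨x ^ 2 - y ^ 2, by omega⟩
    rw [hd] at h' ⊢
    have : y ^ 2 + d - y ^ 2 = d := by omega
    rw [this]
    have e : (y ^ 2 + d) ^ 2 = (y ^ 2) ^ 2 + d * (y ^ 2 + d + y ^ 2) := by ring
    omega
  rcases helper31.sqf (x ^ 2) (y ^ 2) c k hcop2 hy2 hsq hk h' with
    ⟨U, v, hU1, hUv, e1, e2⟩ | ⟨U, v, hU1, hv1, ⟨e1, e2⟩ | ⟨e1, e2⟩⟩
  · -- odd case
    have hcUv : c = U * v := by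
      have : c ^ k = (U * v) ^ k := by
        rw [hprod, e2, mul_pow]
        congr 1
        omega
      exact Nat.pow_left_injective hk0 this
    rcases helper31.sqf x y U k hxy hy hyx hk (by omega) with
      ⟨a, b, ha1, hab, f1, f2⟩ | ⟨a, b, ha1, hb1, hf⟩
    · refine ⟨a, b, v, 0, ?_, ha1, by omega, by omega, by norm_num, Or.inl ⟨rfl, ?_, hab⟩⟩
      · have : U = a * b := by
          have h3 : U ^ k = (a * b) ^ k := by
            rw [mul_pow, ← f2]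
            have e4 : x ^ 2 = y ^ 2 + a ^ k * (x + y) := by
              rw [f1]; ring
            omega
          exact Nat.pow_left_injective hk0 h3
        rw [hcUv, this]
      · rw [← e2]
        have g1 : a ^ (2 * k) = (a ^ k) ^ 2 := by rw [← pow_mul, mul_comm]
        have g2 : b ^ (2 * k) = (b ^ k) ^ 2 := by rw [← pow_mul, mul_comm]
        rw [g1, g2, ← f2, f1]; ring
    · exfalso
      have hpar : (x + y) % 2 = 0 := by
        rcases hf with ⟨g1, g2⟩ | ⟨g1, g2⟩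
        · omega
        · omega
      obtain ⟨hxo, hyo⟩ := odd_of_even_sub hxy hpar
      have hx8 := sq_mod8 hxo
      have hy8 := sq_mod8 hyo
      have hve : v ^ k % 2 = 0 := by omega
      have h4 := four_dvd_pow (even_of_pow hve) hk
      omega
  · -- first even case: k = 2
    have hpar : (x + y) % 2 = 0 := par_of_sq (by omega)
    obtain ⟨hxo, hyo⟩ := odd_of_even_sub hxy hpar
    have hx8 := sq_mod8 hxo
    have hy8 := sq_mod8 hyo
    have hk2 : k = 2 := by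
      by_contra hne
      have hk3 : 3 ≤ k := by omega
      have h4 : 4 ∣ 2 ^ (k - 1) * v ^ k := by
        refine Dvd.dvd.mul_right ?_ _
        have : (2:ℕ) ^ 2 ∣ 2 ^ (k - 1) := pow_dvd_pow 2 (by omega)
        simpa using this
      omega
    subst hk2
    have hc2 : c = 2 * U * v := by
      have : c ^ 2 = (2 * U * v) ^ 2 := by
        rw [hprod, e2]
        have : x ^ 2 - y ^ 2 = 2 * U ^ 2 := by omega
        rw [this]; ring
      exact Nat.pow_left_injective (by norm_num) this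
    exact shape_even (v := U) (U := v) hy hyx hxy le_rfl hv1 hU1 (by simpa using e1)
      (by simpa using e2) hc2
  · have hcv : c = 2 * v * U := by
      have : c ^ k = (2 * v * U) ^ k := by
        rw [hprod, e2]
        have e3 : x ^ 2 - y ^ 2 = 2 ^ (k - 1) * v ^ k := by omega
        have e4 : (2:ℕ) ^ k = 2 * 2 ^ (k - 1) := by
          rw [← pow_succ']; congr 1; omega
        rw [e3, mul_pow, mul_pow, e4]; ring
      exact Nat.pow_left_injective hk0 this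
    exact shape_even hy hyx hxy hk hU1 hv1 e1 e2 hcv

end Pool.Agent.Work.MP_2738db_nt_ZZ.helper15
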