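import Pool.Agent.Work.MP_2738db_nt_ZZ.Interface
import Pool.Agent.Work.MP_2738db_nt_ZZ_helper15.M4A

/-!
Block M4 (helper15): differences of fourth powers, the count.
-/

set_option autoImplicit false

namespace Pool.Agent.Work.MP_2738db_nt_ZZ.helper15

open Finset

/-- Bernoulli -/
theorem bern (w j : ℕ) : ∀ k : ℕ, w ^ k * (w + k * j) ≤ w * (w + j) ^ k
  | 0 => by simp
  | k + 1 => by
      have ih := bern w j k
      calc w ^ (k + 1) * (w + (k + 1) * j)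
          ≤ w ^ k * (w + k * j) * (w + j) := by
            have : w * (w + (k + 1) * j) ≤ (w + k * j) * (w + j) := by nlinarith [Nat.zero_le (k * j * j)]
            calc w ^ (k + 1) * (w + (k + 1) * j) = w ^ k * (w * (w + (k + 1) * j)) := by ring
              _ ≤ w ^ k * ((w + k * j) * (w + j)) := Nat.mul_le_mul_left _ this
              _ = _ := by ring
        _ ≤ w * (w + j) ^ k * (w + j) := Nat.mul_le_mul_right _ ih
        _ = w * (w + j) ^ (k + 1) := by ring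

/-- consequences of the relation -/
theorem rel_bounds {t A B k W : ℕ} (hk : 2 ≤ k) (hB : 1 ≤ B) (h : Rel t A B k W) :
    (B ^ 2) ^ k ≤ 64 * W ^ k ∧ W ^ k ≤ 2 * (B ^ 2) ^ k ∧ A ≤ 3 * B := by
  have hA2 : A ^ (2 * k) = (A ^ k) ^ 2 := by rw [← pow_mul, mul_comm]
  have hB2 : B ^ (2 * k) = (B ^ k) ^ 2 := by rw [← pow_mul, mul_comm]
  have hB3 : (B ^ 2) ^ k = (B ^ k) ^ 2 := by rw [← pow_mul, ← pow_mul, mul_comm]
  rw [hB3]
  rcases h with ⟨_, h1, h2⟩ | ⟨_, h1, h2⟩ | ⟨_, h1, h2⟩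
  · rw [hA2, hB2] at h1
    have h3 : A ^ k ≤ B ^ k := Nat.pow_le_pow_left h2.le k
    have h4 : (A ^ k) ^ 2 ≤ (B ^ k) ^ 2 := Nat.pow_le_pow_left h3 2
    refine ⟨?_, ?_, by omega⟩ <;> omega
  · rw [hA2, hB2] at h1
    have h4 : (8 * A ^ k) ^ 2 ≤ (B ^ k) ^ 2 := Nat.pow_le_pow_left h2.le 2
    have h5 : (8 * A ^ k) ^ 2 = 64 * (A ^ k) ^ 2 := by ring
    rw [h5] at h4
    refine ⟨by omega, by omega, ?_⟩
    have h6 : A ^ k < B ^ k := by omega
    have := lt_of_pow_lt_pow_left' k h6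
    omega
  · rw [hA2, hB2] at h1
    have h4 : (A ^ k) ^ 2 ≤ (8 * B ^ k) ^ 2 := Nat.pow_le_pow_left h2.le 2
    have h5 : (8 * B ^ k) ^ 2 = 64 * (B ^ k) ^ 2 := by ring
    rw [h5] at h4
    refine ⟨by omega, by omega, ?_⟩
    have h6 : A ^ k < (3 * B) ^ k := by
      have h7 : 8 ≤ 3 ^ k := le_trans (by norm_num) (Nat.pow_le_pow_right (by norm_num : 0 < 3) hk)
      calc A ^ k < 8 * B ^ k := h2
        _ ≤ 3 ^ k * B ^ k := Nat.mul_le_mul_right _ h7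
        _ = (3 * B) ^ k := by rw [mul_pow]
    exact (lt_of_pow_lt_pow_left' k h6).le

/-- the relation determines `W` -/
theorem rel_unique {t A B k W W' : ℕ} (hk : 2 ≤ k) (h : Rel t A B k W) (h' : Rel t A B k W') :
    W = W' := by
  have : W ^ k = W' ^ k := by
    rcases h with ⟨ht, h1, _⟩ | ⟨ht, h1, _⟩ | ⟨ht, h1, _⟩ <;>
    rcases h' with ⟨ht', h1', _⟩ | ⟨ht', h1', _⟩ | ⟨ht', h1', _⟩ <;> omega
  exact Nat.pow_left_injective (by omega) this

/-- `W` is close to `B ^ 2` -/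
theorem rel_close {t A B k W : ℕ} (hk : 2 ≤ k) (hB : 1 ≤ B) (hW : 1 ≤ W) (h : Rel t A B k W) :
    ∃ j : ℕ, (W = B ^ 2 + j ∨ B ^ 2 = W + j) ∧ k * j ≤ 63 * B ^ 2 := by
  obtain ⟨h1, h2, _⟩ := rel_bounds hk hB h
  have hB2 : 1 ≤ B ^ 2 := Nat.one_le_pow _ _ hB
  rcases le_total (B ^ 2) W with hle | hle
  · obtain ⟨j, rfl⟩ := Nat.exists_eq_add_of_le hle
    refine ⟨j, Or.inl rfl, ?_⟩
    have hb := bern (B ^ 2) j k
    have h3 : (B ^ 2) ^ k * (B ^ 2 + k * j) ≤ (B ^ 2) ^ k * (2 * B ^ 2) := by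
      calc (B ^ 2) ^ k * (B ^ 2 + k * j) ≤ B ^ 2 * (B ^ 2 + j) ^ k := hb
        _ ≤ B ^ 2 * (2 * (B ^ 2) ^ k) := Nat.mul_le_mul_left _ h2
        _ = _ := by ring
    have h4 := Nat.le_of_mul_le_mul_left h3 (Nat.pow_pos (by omega))
    omega
  · obtain ⟨j, hj⟩ := Nat.exists_eq_add_of_le hle
    refine ⟨j, Or.inr hj, ?_⟩
    have hb := bern W j k
    have h3 : W ^ k * (W + k * j) ≤ W ^ k * (64 * W) := by
      calc W ^ k * (W + k * j) ≤ W * (W + j) ^ k := hb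
        _ = W * (B ^ 2) ^ k := by rw [hj]
        _ ≤ W * (64 * W ^ k) := Nat.mul_le_mul_left _ h1
        _ = _ := by ring
    have h4 := Nat.le_of_mul_le_mul_left h3 (Nat.pow_pos (by omega))
    omega

theorem rel_sizes {t A B k W c M : ℕ} (hk : 2 ≤ k) (hA : 1 ≤ A) (hB : 1 ≤ B) (hW : 1 ≤ W)
    (h : Rel t A B k W) (hc : c = A * B * W) (hcM : c ≤ M ^ 12) :
    A ≤ 4 * M ^ 3 ∧ B ≤ 2 * M ^ 4 := by
  obtain ⟨h1, _, hAB⟩ := rel_bounds hk hB h
  have h8 : B ^ 2 ≤ 8 * W := by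
    have : (B ^ 2) ^ k ≤ (8 * W) ^ k := by
      rw [mul_pow]
      refine h1.trans (Nat.mul_le_mul_right _ ?_)
      exact le_trans (by norm_num) (Nat.pow_le_pow_right (by norm_num : 0 < 8) hk)
    exact le_of_pow_le_pow_left₀ (by omega) (by omega) this
  have h9 : A * B ^ 3 ≤ 8 * M ^ 12 := by
    calc A * B ^ 3 = A * B * B ^ 2 := by ring
      _ ≤ A * B * (8 * W) := Nat.mul_le_mul_left _ h8
      _ = 8 * (A * B * W) := by ring
      _ ≤ 8 * M ^ 12 := by rw [← hc]; omega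
  constructor
  · have h10 : A ^ 4 ≤ (4 * M ^ 3) ^ 4 := by
      calc A ^ 4 = A * A ^ 3 := by ring
        _ ≤ A * (3 * B) ^ 3 := Nat.mul_le_mul_left _ (Nat.pow_le_pow_left hAB 3)
        _ = 27 * (A * B ^ 3) := by ring
        _ ≤ 27 * (8 * M ^ 12) := Nat.mul_le_mul_left _ h9
        _ ≤ 256 * M ^ 12 := by omega
        _ = (4 * M ^ 3) ^ 4 := by ring
    exact le_of_pow_le_pow_left₀ (by norm_num) (by omega) h10
  · have h10 : B ^ 3 ≤ (2 * M ^ 4) ^ 3 := by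
      calc B ^ 3 = 1 * B ^ 3 := by ring
        _ ≤ A * B ^ 3 := Nat.mul_le_mul_right _ hA
        _ ≤ 8 * M ^ 12 := h9
        _ = (2 * M ^ 4) ^ 3 := by ring
    exact le_of_pow_le_pow_left₀ (by norm_num) (by omega) h10

open Classical in
/-- the determined `W` -/
noncomputable def Wf (t A B k : ℕ) : ℕ := if h : ∃ W, Rel t A B k W then h.choose else 0

theorem Wf_eq {t A B k W : ℕ} (hk : 2 ≤ k) (h : Rel t A B k W) : Wf t A B k = W := by
  have hex : ∃ W, Rel t A B k W := ⟨W, h⟩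
  unfold Wf
  rw [dif_pos hex]
  exact rel_unique hk hex.choose_spec h

theorem count_nat (N M : ℕ) (hM : 1 ≤ M) (hN : N ≤ M ^ 12) :
    {c : ℕ | 1 ≤ c ∧ c ≤ N ∧ ∃ k : ℕ, 1 ≤ k ∧ Mi 4 c k}.ncard ≤ 8000 * M ^ 11 := by
  classical
  set F1 : Finset ℕ := ((range (M ^ 4 + 1)) ×ˢ (range (M ^ 4 + 1))).image
    (fun q : ℕ × ℕ => q.1 ^ 4 - q.2 ^ 4) with hF1
  set F2 : Finset ℕ := ((range 3) ×ˢ ((range (4 * M ^ 3 + 1)) ×ˢ ((range (2 * M ^ 4 + 1)) ×ˢ
    (range (M ^ 4 + 1))))).image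
    (fun q : ℕ × (ℕ × (ℕ × ℕ)) => q.2.1 * q.2.2.1 * Wf q.1 q.2.1 q.2.2.1 q.2.2.2) with hF2
  set F3 : Finset ℕ := ((range (4 * M ^ 3 + 1)) ×ˢ ((range (2 * M ^ 4 + 1)) ×ˢ
    (range (252 * M ^ 4 + 1)))).image
    (fun q : ℕ × (ℕ × ℕ) => q.1 * q.2.1 * (q.2.1 ^ 2 + q.2.2)) with hF3
  set F4 : Finset ℕ := ((range (4 * M ^ 3 + 1)) ×ˢ ((range (2 * M ^ 4 + 1)) ×ˢ
    (range (252 * M ^ 4 + 1)))).image
    (fun q : ℕ × (ℕ × ℕ) => q.1 * q.2.1 * (q.2.1 ^ 2 - q.2.2)) with hF4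
  have hsub : {c : ℕ | 1 ≤ c ∧ c ≤ N ∧ ∃ k : ℕ, 1 ≤ k ∧ Mi 4 c k} ⊆
      ((F1 ∪ F2 ∪ F3 ∪ F4 : Finset ℕ) : Set ℕ) := by
    rintro c ⟨hc1, hcN, k, hk1, x, y, hy1, hxy, h⟩
    have hcM : c ≤ M ^ 12 := hcN.trans hN
    simp only [coe_union, Set.mem_union, mem_coe]
    rcases Nat.lt_or_ge k 2 with hk | hk
    · have hk' : k = 1 := by omega
      subst hk'
      rw [pow_one] at h
      left; left; left
      have hyx : y < x := by
        by_contra hcon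
        push Not at hcon
        have := Nat.pow_le_pow_left hcon 4
        omega
      have hx3 : x ^ 3 ≤ c := by
        have h1 : y ^ 4 ≤ y * x ^ 3 := by
          calc y ^ 4 = y * y ^ 3 := by ring
            _ ≤ y * x ^ 3 := Nat.mul_le_mul_left _ (Nat.pow_le_pow_left hyx.le 3)
        have h2 : (y + 1) * x ^ 3 ≤ x * x ^ 3 := Nat.mul_le_mul_right _ hyx
        have h3 : x * x ^ 3 = x ^ 4 := by ring
        have h4 : (y + 1) * x ^ 3 = y * x ^ 3 + x ^ 3 := by ring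
        omega
      have hx : x ≤ M ^ 4 := by
        have : x ^ 3 ≤ (M ^ 4) ^ 3 := by
          calc x ^ 3 ≤ c := hx3
            _ ≤ M ^ 12 := hcM
            _ = (M ^ 4) ^ 3 := by ring
        exact le_of_pow_le_pow_left₀ (by norm_num) (by positivity) this
      rw [hF1, mem_image]
      refine ⟨(x, y), ?_, ?_⟩
      · simp only [mem_product, mem_range]
        omega
      · simp only
        omega
    · obtain ⟨A, B, W, t, hcABW, hA, hB, hW, ht, hR⟩ := shape hy1 hxy hk hc1 h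
      obtain ⟨hAM, hBM⟩ := rel_sizes hk hA hB hW hR hcABW hcM
      rcases Nat.lt_or_ge (M ^ 4) k with hkM | hkM
      · -- large exponent
        obtain ⟨j, hj, hkj⟩ := rel_close hk hB hW hR
        have hj2 : j ≤ 252 * M ^ 4 := by
          have hB2 : B ^ 2 ≤ 4 * M ^ 8 := by
            calc B ^ 2 ≤ (2 * M ^ 4) ^ 2 := Nat.pow_le_pow_left hBM 2
              _ = 4 * M ^ 8 := by ring
          have h1 : M ^ 4 * j ≤ M ^ 4 * (252 * M ^ 4) := by
            calc M ^ 4 * j ≤ k * j := Nat.mul_le_mul_right _ hkM.le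
              _ ≤ 63 * B ^ 2 := hkj
              _ ≤ 63 * (4 * M ^ 8) := Nat.mul_le_mul_left _ hB2
              _ = _ := by ring
          exact Nat.le_of_mul_le_mul_left h1 (by positivity)
        rcases hj with hj | hj
        · left; right
          rw [hF3, mem_image]
          refine ⟨(A, B, j), ?_, ?_⟩
          · simp only [mem_product, mem_range]
            omega
          · simp only
            rw [hcABW, hj]
        · right
          rw [hF4, mem_image]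
          refine ⟨(A, B, j), ?_, ?_⟩
          · simp only [mem_product, mem_range]
            omega
          · simp only
            rw [hcABW, hj, Nat.add_sub_cancel]
      · left; left; right
        rw [hF2, mem_image]
        refine ⟨(t, A, B, k), ?_, ?_⟩
        · simp only [mem_product, mem_range]
          omega
        · simp only
          rw [Wf_eq hk hR, hcABW]
  have hcard : (F1 ∪ F2 ∪ F3 ∪ F4).card ≤ 8000 * M ^ 11 := by
    have h1 : F1.card ≤ (M ^ 4 + 1) * (M ^ 4 + 1) := by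
      refine card_image_le.trans ?_
      simp [card_product]
    have h2 : F2.card ≤ 3 * ((4 * M ^ 3 + 1) * ((2 * M ^ 4 + 1) * (M ^ 4 + 1))) := by
      refine card_image_le.trans ?_
      simp [card_product]
    have h3 : F3.card ≤ (4 * M ^ 3 + 1) * ((2 * M ^ 4 + 1) * (252 * M ^ 4 + 1)) := by
      refine card_image_le.trans ?_
      simp [card_product]
    have h4 : F4.card ≤ (4 * M ^ 3 + 1) * ((2 * M ^ 4 + 1) * (252 * M ^ 4 + 1)) := by
      refine card_image_le.trans ?_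
      simp [card_product]
    have hu : (F1 ∪ F2 ∪ F3 ∪ F4).card ≤ F1.card + F2.card + F3.card + F4.card :=
      (card_union_le _ _).trans (Nat.add_le_add_right ((card_union_le _ _).trans
        (Nat.add_le_add_right (card_union_le _ _) _)) _)
    have m3 : 1 ≤ M ^ 3 := Nat.one_le_pow _ _ hM
    have m4 : 1 ≤ M ^ 4 := Nat.one_le_pow _ _ hM
    have e1 : (M ^ 4 + 1) * (M ^ 4 + 1) ≤ 4 * M ^ 11 := by
      calc (M ^ 4 + 1) * (M ^ 4 + 1) ≤ (2 * M ^ 4) * (2 * M ^ 4) :=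
            Nat.mul_le_mul (by omega) (by omega)
        _ = 4 * M ^ 8 := by ring
        _ ≤ 4 * M ^ 11 := Nat.mul_le_mul_left _ (Nat.pow_le_pow_right hM (by norm_num))
    have e2 : 3 * ((4 * M ^ 3 + 1) * ((2 * M ^ 4 + 1) * (M ^ 4 + 1))) ≤ 90 * M ^ 11 := by
      calc 3 * ((4 * M ^ 3 + 1) * ((2 * M ^ 4 + 1) * (M ^ 4 + 1)))
          ≤ 3 * ((5 * M ^ 3) * ((3 * M ^ 4) * (2 * M ^ 4))) :=
            Nat.mul_le_mul_left _ (Nat.mul_le_mul (by omega) (Nat.mul_le_mul (by omega) (by omega)))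
        _ = 90 * M ^ 11 := by ring
    have e3 : (4 * M ^ 3 + 1) * ((2 * M ^ 4 + 1) * (252 * M ^ 4 + 1)) ≤ 3795 * M ^ 11 := by
      calc (4 * M ^ 3 + 1) * ((2 * M ^ 4 + 1) * (252 * M ^ 4 + 1))
          ≤ (5 * M ^ 3) * ((3 * M ^ 4) * (253 * M ^ 4)) :=
            Nat.mul_le_mul (by omega) (Nat.mul_le_mul (by omega) (by omega))
        _ = 3795 * M ^ 11 := by ring
    omega
  calc {c : ℕ | 1 ≤ c ∧ c ≤ N ∧ ∃ k : ℕ, 1 ≤ k ∧ Mi 4 c k}.ncard
      ≤ ((F1 ∪ F2 ∪ F3 ∪ F4 : Finset ℕ) : Set ℕ).ncard :=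
        Set.ncard_le_ncard hsub (Finset.finite_toSet _)
    _ = (F1 ∪ F2 ∪ F3 ∪ F4).card := Set.ncard_coe_finset _
    _ ≤ _ := hcard

theorem m4 : Stmt_M4 := by
  refine ⟨8000 * 2 ^ 11, 1 / 12, by norm_num, fun N hN => ?_⟩
  set M : ℕ := ⌈(N : ℝ) ^ (1 / 12 : ℝ)⌉₊ with hM
  have hNr : (1 : ℝ) ≤ N := by exact_mod_cast hN
  have hroot1 : (1 : ℝ) ≤ (N : ℝ) ^ (1 / 12 : ℝ) := Real.one_le_rpow hNr (by norm_num)
  have hMle : (N : ℝ) ^ (1 / 12 : ℝ) ≤ M := Nat.le_ceil _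
  have hM1 : 1 ≤ M := by
    have : (1 : ℝ) ≤ M := hroot1.trans hMle
    exact_mod_cast this
  have hMu : (M : ℝ) ≤ 2 * (N : ℝ) ^ (1 / 12 : ℝ) := by
    have := Nat.ceil_lt_add_one (show (0:ℝ) ≤ (N : ℝ) ^ (1 / 12 : ℝ) by positivity)
    linarith
  have hN12 : N ≤ M ^ 12 := by
    have h1 : ((N : ℝ) ^ (1 / 12 : ℝ)) ^ 12 = N := by
      rw [← Real.rpow_natCast, ← Real.rpow_mul (by positivity)]
      norm_num
    have h2 : (N : ℝ) ≤ (M : ℝ) ^ 12 := by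
      rw [← h1]
      exact pow_le_pow_left₀ (by positivity) hMle 12
    exact_mod_cast h2
  have hc := count_nat N M hM1 hN12
  have hc' : (({c : ℕ | 1 ≤ c ∧ c ≤ N ∧ ∃ k : ℕ, 1 ≤ k ∧ Mi 4 c k}.ncard : ℕ) : ℝ) ≤
      8000 * (M : ℝ) ^ 11 := by exact_mod_cast hc
  refine hc'.trans ?_
  have h3 : (M : ℝ) ^ 11 ≤ (2 * (N : ℝ) ^ (1 / 12 : ℝ)) ^ 11 :=
    pow_le_pow_left₀ (by positivity) hMu 11
  have h4 : (2 * (N : ℝ) ^ (1 / 12 : ℝ)) ^ 11 = 2 ^ 11 * (N : ℝ) ^ (1 - 1 / 12 : ℝ) := by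
    rw [mul_pow, ← Real.rpow_natCast ((N : ℝ) ^ (1 / 12 : ℝ)), ← Real.rpow_mul (by positivity)]
    norm_num
  rw [h4] at h3
  calc 8000 * (M : ℝ) ^ 11 ≤ 8000 * (2 ^ 11 * (N : ℝ) ^ (1 - 1 / 12 : ℝ)) :=
        mul_le_mul_of_nonneg_left h3 (by norm_num)
    _ = 8000 * 2 ^ 11 * (N : ℝ) ^ (1 - 1 / 12 : ℝ) := by ring

end Pool.Agent.Work.MP_2738db_nt_ZZ.helper15
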