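import Pool.Agent.Work.MP_2738db_nt_ZZ_helper15.O4A

/-!
Block O4 (helper15): differences of `p`-th powers, large `p`.
-/

set_option autoImplicit false

namespace Pool.Agent.Work.MP_2738db_nt_ZZ.helper15

open Finset Filter

/-- the asymptotic facts -/
theorem asym (η C : ℝ) (hη : 0 < η) (hη1 : η < 1) (hC : 1 ≤ C) :
    ∃ T : ℝ, 3 ≤ T ∧ ∀ t : ℝ, T ≤ t →
      3 * t * Real.exp (t ^ (1 - η)) ≤ Real.exp (t ^ (1 - η / 2)) ∧
      4 ≤ Real.exp (t ^ (1 - η / 2)) ∧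
      2 * (C * (1 + Real.log (1 + t))) ^ 2 ≤ t ^ (η / 2) ∧
      8 * (1 + t) ^ 2 * t ^ (η / 2) ≤ Real.exp (t ^ (1 - η / 2) / 2) := by
  have ha : 0 < 1 - η / 2 := by linarith
  have h1 := (isLittleO_log_rpow_atTop ha).bound (show (0 : ℝ) < 1 / 20 by norm_num)
  have h2 := (isLittleO_log_rpow_atTop (show 0 < η / 4 by linarith)).bound
    (show (0 : ℝ) < 1 / (5 * C) by positivity)
  have h3 := (tendsto_rpow_atTop (show 0 < η / 2 by linarith)).eventually_ge_atTop 2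
  obtain ⟨T, hT⟩ := ((h1.and (h2.and h3)).and (eventually_ge_atTop (3 : ℝ))).exists_forall_of_atTop
  refine ⟨max T 3, le_max_right _ _, fun t ht => ?_⟩
  obtain ⟨⟨h1, h2, h3⟩, ht3⟩ := hT t ((le_max_left _ _).trans ht)
  have ht0 : 0 < t := by linarith
  have hlog1 : 1 ≤ Real.log t := by
    have h5 : Real.exp 1 ≤ t := by linarith [Real.exp_one_lt_d9]
    rw [← Real.log_exp 1]
    exact Real.log_le_log (Real.exp_pos _) h5
  have hta : 0 < t ^ (1 - η / 2) := Real.rpow_pos_of_pos ht0 _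
  have htb : 0 < t ^ (η / 4) := Real.rpow_pos_of_pos ht0 _
  rw [Real.norm_of_nonneg (by linarith), Real.norm_of_nonneg hta.le] at h1
  rw [Real.norm_of_nonneg (by linarith), Real.norm_of_nonneg htb.le] at h2
  have hlogt : t = Real.exp (Real.log t) := (Real.exp_log ht0).symm
  refine ⟨?_, ?_, ?_, ?_⟩
  · -- 3 t exp (t^(1-η)) ≤ exp (t^(1-η/2))
    have h5 : t ^ (1 - η) ≤ t ^ (1 - η / 2) / 2 := by
      have h6 : t ^ (1 - η / 2) = t ^ (1 - η) * t ^ (η / 2) := by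
        rw [← Real.rpow_add ht0]; ring_nf
      have h7 : 0 < t ^ (1 - η) := Real.rpow_pos_of_pos ht0 _
      rw [h6]; nlinarith
    have h8 : 3 * t ≤ Real.exp (2 * Real.log t + Real.log t) := by
      rw [Real.exp_add, Real.exp_log ht0, two_mul, Real.exp_add, Real.exp_log ht0]
      nlinarith
    calc 3 * t * Real.exp (t ^ (1 - η)) ≤
        Real.exp (2 * Real.log t + Real.log t) * Real.exp (t ^ (1 - η)) :=
          mul_le_mul_of_nonneg_right h8 (Real.exp_pos _).le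
      _ = Real.exp (2 * Real.log t + Real.log t + t ^ (1 - η)) := by rw [← Real.exp_add]
      _ ≤ _ := by
        apply Real.exp_le_exp.mpr
        linarith
  · have h5 : (4 : ℝ) ≤ Real.exp (2 * Real.log t) := by
      rw [two_mul, Real.exp_add, Real.exp_log ht0]; nlinarith
    refine h5.trans (Real.exp_le_exp.mpr (by linarith))
  · have h5 : Real.log (1 + t) ≤ 2 * Real.log t := by
      have h6 : (1 : ℝ) + t ≤ t ^ 2 := by nlinarith
      calc Real.log (1 + t) ≤ Real.log (t ^ 2) := Real.log_le_log (by linarith) h6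
        _ = 2 * Real.log t := by rw [Real.log_pow]; norm_num
    have h5' : 0 ≤ Real.log (1 + t) := Real.log_nonneg (by linarith)
    have h7 : C * (1 + Real.log (1 + t)) ≤ 3 * C * Real.log t := by nlinarith
    have h8 : 3 * C * Real.log t ≤ 3 / 5 * t ^ (η / 4) := by
      have h9 : 3 * C * Real.log t ≤ 3 * C * (1 / (5 * C) * t ^ (η / 4)) :=
        mul_le_mul_of_nonneg_left h2 (by positivity)
      have h10 : 3 * C * (1 / (5 * C) * t ^ (η / 4)) = 3 / 5 * t ^ (η / 4) := by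
        field_simp
      linarith
    have h11 : t ^ (η / 2) = t ^ (η / 4) * t ^ (η / 4) := by
      rw [← Real.rpow_add ht0]; ring_nf
    have h12 : 0 ≤ C * (1 + Real.log (1 + t)) := by positivity
    have h13 : (C * (1 + Real.log (1 + t))) ^ 2 ≤ (3 / 5 * t ^ (η / 4)) ^ 2 :=
      pow_le_pow_left₀ h12 (h7.trans h8) 2
    rw [h11]
    nlinarith
  · have h5 : t ^ (η / 2) ≤ t := by
      calc t ^ (η / 2) ≤ t ^ (1 : ℝ) :=
            Real.rpow_le_rpow_of_exponent_le (by linarith) (by linarith)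
        _ = t := Real.rpow_one t
    have h6 : (1 + t) ^ 2 ≤ (t ^ 2) ^ 2 := pow_le_pow_left₀ (by linarith) (by nlinarith) 2
    have h7 : (8 : ℝ) ≤ t ^ 3 := by
      calc (8 : ℝ) = 2 ^ 3 := by norm_num
        _ ≤ t ^ 3 := pow_le_pow_left₀ (by norm_num) (by linarith) 3
    have h8 : t ^ 8 = Real.exp (8 * Real.log t) := by
      rw [show (8 : ℝ) * Real.log t = ((8 : ℕ) : ℝ) * Real.log t by norm_num,
        ← Real.log_pow, Real.exp_log (by positivity)]
    calc 8 * (1 + t) ^ 2 * t ^ (η / 2) ≤ t ^ 3 * (t ^ 2) ^ 2 * t := by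
          apply mul_le_mul _ h5 (Real.rpow_nonneg ht0.le _) (by positivity)
          exact mul_le_mul h7 h6 (by positivity) (by positivity)
      _ = t ^ 8 := by ring
      _ = Real.exp (8 * Real.log t) := h8
      _ ≤ _ := by
        apply Real.exp_le_exp.mpr
        linarith

/-- **Block O4** -/
theorem o4 : Stmt_Str → Stmt_Btr → Stmt_Few → Stmt_O4 := by
  intro hStr hBtr hFew η hη hη1
  obtain ⟨C, hC, hB⟩ := hBtr
  obtain ⟨C₁, δ₁, hδ₁, hF⟩ := hFew (η / 2) (by linarith) (by linarith)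
  obtain ⟨T, hT3, hT⟩ := asym η C hη hη1 hC
  set δ : ℝ := min δ₁ (η / 2) with hδ
  have hδ0 : 0 < δ := lt_min hδ₁ (by linarith)
  refine ⟨|C₁| + 2 + T ^ δ, δ, hδ0, fun N hN => ?_⟩
  have hN0 : (0 : ℝ) < N := by positivity
  have hL2 : Real.log 2 ≤ Real.log N := Real.log_le_log (by norm_num) (by exact_mod_cast hN)
  have hl2 : (0.6931471803 : ℝ) < Real.log 2 := Real.log_two_gt_d9
  set t := Real.log N with ht
  have ht0 : 0 < t := by linarith
  have htδ : 0 < t ^ δ := Real.rpow_pos_of_pos ht0 _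
  have hTδ : 0 < T ^ δ := Real.rpow_pos_of_pos (by linarith) _
  set E : Set ℕ := {c : ℕ | 1 ≤ c ∧ c ≤ N ∧ ∃ p k : ℕ, p.Prime ∧ 3 ≤ p ∧ t ^ η < (p : ℝ) ∧
      1 ≤ k ∧ Mi p c k} with hE
  rcases lt_or_ge t T with hlt | hge
  · -- small N
    have h1 : E ⊆ ((Finset.Icc 1 N : Finset ℕ) : Set ℕ) := by
      rintro c ⟨h1, h2, -⟩
      simp only [coe_Icc, Set.mem_Icc]
      exact ⟨h1, h2⟩
    have h2 : E.ncard ≤ N := by
      have := Set.ncard_le_ncard h1 (Finset.finite_toSet _)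
      rw [Set.ncard_coe_finset, Nat.card_Icc] at this
      omega
    have h3 : (E.ncard : ℝ) ≤ N := by exact_mod_cast h2
    have h4 : t ^ δ ≤ T ^ δ := Real.rpow_le_rpow ht0.le hlt.le hδ0.le
    rw [le_div_iff₀ htδ]
    have h5 : 0 ≤ |C₁| := abs_nonneg _
    calc (E.ncard : ℝ) * t ^ δ ≤ N * T ^ δ := by
          apply mul_le_mul h3 h4 htδ.le hN0.le
      _ ≤ (|C₁| + 2 + T ^ δ) * N := by nlinarith
  · obtain ⟨e1, e2, e3, e4⟩ := hT t hge
    have ht1 : 1 ≤ t := by linarith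
    set z₀ : ℝ := Real.exp (t ^ (1 - η / 2)) with hz₀
    set z : ℕ := ⌊z₀⌋₊ with hz
    set K : ℕ := ⌊t ^ η⌋₊ with hK
    have hz₀0 : 0 < z₀ := Real.exp_pos _
    have hzle : (z : ℝ) ≤ z₀ := Nat.floor_le hz₀0.le
    have hzgt : z₀ < z + 1 := Nat.lt_floor_add_one _
    have hKle : (K : ℝ) ≤ t ^ η := Nat.floor_le (Real.rpow_nonneg ht0.le _)
    have hKgt : t ^ η < K + 1 := Nat.lt_floor_add_one _
    have hz3 : 3 ≤ z := by
      have h1 : (3 : ℝ) < z := by linarith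
      have h2 : 3 < z := by exact_mod_cast h1
      omega
    have hzN : z ≤ N := by
      have h1 : z₀ ≤ N := by
        calc z₀ ≤ Real.exp t := by
              apply Real.exp_le_exp.mpr
              calc t ^ (1 - η / 2) ≤ t ^ (1 : ℝ) :=
                    Real.rpow_le_rpow_of_exponent_le ht1 (by linarith)
                _ = t := Real.rpow_one t
          _ = N := Real.exp_log hN0
      exact_mod_cast hzle.trans h1
    set F : Set ℕ := {c : ℕ | 1 ≤ c ∧ c ≤ N ∧ ∀ r₁ r₂ : ℕ, r₁.Prime → r₂.Prime →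
      Real.exp (Real.log N ^ (1 - η / 2)) < r₁ → r₁ < r₂ → ¬ r₁ * r₂ ∣ c} with hFdef
    set G : Set ℕ := {c : ℕ | 1 ≤ c ∧ c ≤ N ∧ ∃ p r₁ r₂ : ℕ, K < p ∧ p.Prime ∧ r₁.Prime ∧
      r₂.Prime ∧ z < r₁ ∧ r₁ < r₂ ∧ r₁ * r₂ ∣ c ∧ r₁ % p = 1 ∧ r₂ % p = 1} with hG
    have hsub : E ⊆ F ∪ G := by
      rintro c ⟨hc1, hcN, p, k, hp, hp3, hpη, hk, hM⟩
      by_cases hcF : c ∈ F
      · exact Or.inl hcF
      · right
        have h1 : ∃ r₁ r₂ : ℕ, r₁.Prime ∧ r₂.Prime ∧ z₀ < r₁ ∧ r₁ < r₂ ∧ r₁ * r₂ ∣ c := by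
          by_contra hcon
          apply hcF
          refine ⟨hc1, hcN, fun r₁ r₂ h1 h2 h3 h4 h5 => hcon ⟨r₁, r₂, h1, h2, ?_, h4, h5⟩⟩
          exact h3
        obtain ⟨r₁, r₂, hr1, hr2, hz1, h12, hdvd⟩ := h1
        obtain ⟨d, w, hcd, hw, hdd⟩ := struct hStr p c k N hp hp3 hc1 hcN hN hk hM
        have hd1 : 1 ≤ d := by
          rcases Nat.eq_zero_or_pos d with h0 | h0
          · rw [h0] at hcd; omega
          · exact h0
        have hdz : (d : ℝ) ≤ z₀ := (d_bound η p d N hp3 hN hd1 hpη hdd).trans e1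
        have hd1r : d < r₁ := by
          have : (d : ℝ) < r₁ := hdz.trans_lt hz1
          exact_mod_cast this
        have key : ∀ r : ℕ, r.Prime → r₁ ≤ r → r ∣ c → r % p = 1 := by
          intro r hr hle hrc
          rw [hcd] at hrc
          rcases (Nat.Prime.dvd_mul hr).mp hrc with h | h
          · have := Nat.le_of_dvd hd1 h
            omega
          · exact hw r hr h
        refine ⟨hc1, hcN, p, r₁, r₂, ?_, hp, hr1, hr2, ?_, h12, hdvd,
          key r₁ hr1 le_rfl ((Dvd.intro _ rfl).trans hdvd),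
          key r₂ hr2 h12.le ((Dvd.intro_left _ rfl).trans hdvd)⟩
        · have : (K : ℝ) < p := hKle.trans_lt hpη
          exact_mod_cast this
        · have : (z : ℝ) < r₁ := hzle.trans_lt hz1
          exact_mod_cast this
    have hfinF : F.Finite := (Finset.finite_toSet (Finset.Icc 1 N)).subset (by
      rintro c ⟨h1, h2, -⟩
      simp only [coe_Icc, Set.mem_Icc]
      exact ⟨h1, h2⟩)
    have hfinG : G.Finite := (Finset.finite_toSet (Finset.Icc 1 N)).subset (by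
      rintro c ⟨h1, h2, -⟩
      simp only [coe_Icc, Set.mem_Icc]
      exact ⟨h1, h2⟩)
    have hcard : (E.ncard : ℝ) ≤ F.ncard + G.ncard := by
      have h1 : E.ncard ≤ (F ∪ G).ncard := Set.ncard_le_ncard hsub (hfinF.union hfinG)
      have h2 : (F ∪ G).ncard ≤ F.ncard + G.ncard := Set.ncard_union_le _ _
      exact_mod_cast h1.trans h2
    have hFc : (F.ncard : ℝ) ≤ C₁ * N / t ^ δ₁ := hF N hN
    have hGc : (G.ncard : ℝ) ≤ N * ((C * (1 + Real.log (1 + t))) ^ 2 * (2 / ((K : ℝ) + 1)) +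
        (1 + t) ^ 2 * (2 / ((Nat.sqrt z : ℝ) + 1))) := by
      refine (count_two z N K).trans ?_
      apply mul_le_mul_of_nonneg_left _ hN0.le
      exact sum_p C hC z N K hz3 hzN (fun p z N h1 h2 h3 h4 => hB p z N h1 h2 h3 h4)
    have htη : 0 < t ^ (η / 2) := Real.rpow_pos_of_pos ht0 _
    have htηη : t ^ η = t ^ (η / 2) * t ^ (η / 2) := by
      rw [← Real.rpow_add ht0]; ring_nf
    have hg1 : (C * (1 + Real.log (1 + t))) ^ 2 * (2 / ((K : ℝ) + 1)) ≤ 1 / t ^ (η / 2) := by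
      rw [mul_div_assoc', div_le_div_iff₀ (by positivity) htη]
      have h1 : (C * (1 + Real.log (1 + t))) ^ 2 * 2 ≤ t ^ (η / 2) := by linarith
      calc (C * (1 + Real.log (1 + t))) ^ 2 * 2 * t ^ (η / 2) ≤ t ^ (η / 2) * t ^ (η / 2) :=
            mul_le_mul_of_nonneg_right h1 htη.le
        _ = t ^ η := htηη.symm
        _ ≤ 1 * (K + 1) := by linarith
    have hsq : Real.exp (t ^ (1 - η / 2) / 2) ≤ 2 * ((Nat.sqrt z : ℝ) + 1) := by
      have h1 : Real.exp (t ^ (1 - η / 2) / 2) ^ 2 = z₀ := by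
        rw [← Real.exp_nat_mul]
        rw [hz₀]; congr 1; push_cast; ring
      have h2 : z < (Nat.sqrt z + 1) ^ 2 := Nat.lt_succ_sqrt' z
      have h3 : (z : ℝ) + 1 ≤ ((Nat.sqrt z : ℝ) + 1) ^ 2 := by exact_mod_cast h2
      have h4 : Real.exp (t ^ (1 - η / 2) / 2) ^ 2 ≤ (2 * ((Nat.sqrt z : ℝ) + 1)) ^ 2 := by
        rw [h1]; nlinarith
      exact le_of_sq_le_sq h4 (by positivity)
    have hg2 : (1 + t) ^ 2 * (2 / ((Nat.sqrt z : ℝ) + 1)) ≤ 1 / t ^ (η / 2) := by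
      rw [mul_div_assoc', div_le_div_iff₀ (by positivity) htη]
      nlinarith
    have hδ1 : t ^ δ ≤ t ^ δ₁ := Real.rpow_le_rpow_of_exponent_le ht1 (min_le_left _ _)
    have hδ2 : t ^ δ ≤ t ^ (η / 2) := Real.rpow_le_rpow_of_exponent_le ht1 (min_le_right _ _)
    have hF2 : C₁ * N / t ^ δ₁ ≤ |C₁| * N / t ^ δ := by
      have h1 : C₁ * N ≤ |C₁| * N := mul_le_mul_of_nonneg_right (le_abs_self _) hN0.le
      have h2 : 0 ≤ |C₁| * N := by positivity
      calc C₁ * N / t ^ δ₁ ≤ |C₁| * N / t ^ δ₁ :=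
            div_le_div_of_nonneg_right h1 (Real.rpow_nonneg ht0.le _)
        _ ≤ |C₁| * N / t ^ δ := div_le_div_of_nonneg_left h2 htδ hδ1
    have hG2 : 1 / t ^ (η / 2) ≤ 1 / t ^ δ := one_div_le_one_div_of_le htδ hδ2
    have hG3 : (G.ncard : ℝ) ≤ N * (1 / t ^ δ + 1 / t ^ δ) := by
      refine hGc.trans (mul_le_mul_of_nonneg_left ?_ hN0.le)
      linarith
    have hpos : 0 ≤ T ^ δ * N / t ^ δ := by positivity
    calc (E.ncard : ℝ) ≤ F.ncard + G.ncard := hcard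
      _ ≤ |C₁| * N / t ^ δ + N * (1 / t ^ δ + 1 / t ^ δ) := by linarith
      _ ≤ |C₁| * N / t ^ δ + N * (1 / t ^ δ + 1 / t ^ δ) + T ^ δ * N / t ^ δ := by linarith
      _ = (|C₁| + 2 + T ^ δ) * N / t ^ δ := by ring

end Pool.Agent.Work.MP_2738db_nt_ZZ.helper15
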