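import Pool.Agent.Work.MP_2738db_nt_ZZ.Interface

/-!
Block O4 (helper15), part A: structure of the exceptional integers and the elementary sums.
-/

set_option autoImplicit false

namespace Pool.Agent.Work.MP_2738db_nt_ZZ.helper15

open Finset

theorem two_pow_le_diff (p y : ℕ) (hy : 1 ≤ y) (hp : 1 ≤ p) : y ^ p + 2 ^ p ≤ (y + 1) ^ p + 1 := by
  induction p, hp using Nat.le_induction with
  | base => simp
  | succ p hp ih =>
    have h1 : (y + 1) * (y ^ p + 2 ^ p) ≤ (y + 1) * ((y + 1) ^ p + 1) := Nat.mul_le_mul_left _ ih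
    have h2 : 1 ≤ y ^ p := Nat.one_le_pow _ _ hy
    have h3 : 1 ≤ 2 ^ p := Nat.one_le_two_pow
    have h4 : 2 * 2 ^ p + y ≤ (y + 1) * 2 ^ p + 1 := by nlinarith
    calc y ^ (p + 1) + 2 ^ (p + 1) = y * y ^ p + 2 * 2 ^ p := by ring
      _ ≤ (y + 1) ^ (p + 1) + 1 := by
        have h5 : (y + 1) * ((y + 1) ^ p + 1) = (y + 1) ^ (p + 1) + (y + 1) := by ring
        have h6 : (y + 1) * (y ^ p + 2 ^ p) = y * y ^ p + y ^ p + (y + 1) * 2 ^ p := by ring
        omega

/-- the structure of the exceptional integers -/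
theorem struct (hStr : Stmt_Str) (p c k N : ℕ) (hp : p.Prime) (hp3 : 3 ≤ p) (hc : 1 ≤ c)
    (hcN : c ≤ N) (hN : 2 ≤ N) (hk : 1 ≤ k) (h : Mi p c k) :
    ∃ d z : ℕ, c = d * z ∧ (∀ r : ℕ, r.Prime → r ∣ z → r % p = 1) ∧
      (d ^ p ≤ N ∨ 2 ^ p ≤ N ^ 2 ∧ d ^ p ≤ p ^ p * N) := by
  obtain ⟨x, y, hy, hxy, hE⟩ := h
  have hp0 : p ≠ 0 := by omega
  have hlt : y < x := by
    by_contra hge
    push Not at hge
    have h1 : x ^ p ≤ y ^ p := Nat.pow_le_pow_left hge p
    have h2 : 1 ≤ c ^ k := Nat.one_le_pow _ _ hc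
    omega
  obtain ⟨d, z, D, hcd, hD, hD1, hdz, hrz, hrD, hcase⟩ := hStr p (x : ℤ) (y : ℤ) c k hp hp3
    (Nat.isCoprime_iff_coprime.mpr hxy) hc hk (by
      have h1 : ((y ^ p + c ^ k : ℕ) : ℤ) = ((x ^ p : ℕ) : ℤ) := by rw [hE]
      push_cast at h1
      linarith)
  have hx : x = D + y := by
    have : (x : ℤ) = D + y := by linarith
    exact_mod_cast this
  have hDle : D ^ p ≤ c ^ k := by
    have h1 : D ^ p + y ^ p ≤ (D + y) ^ p := pow_add_pow_le (Nat.zero_le _) (Nat.zero_le _) hp0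
    rw [← hx, ← hE] at h1
    omega
  have hd1 : 1 ≤ d := by
    rcases Nat.eq_zero_or_pos d with h0 | h0
    · rw [h0] at hcd; omega
    · exact h0
  have hk0 : k ≠ 0 := by omega
  refine ⟨d, z, hcd, hrz, ?_⟩
  rcases hcase with ⟨hDd, -, -⟩ | ⟨hpd, hpD, -⟩
  · left
    have h1 : (d ^ p) ^ k ≤ c ^ k := by
      calc (d ^ p) ^ k = (d ^ k) ^ p := by rw [← pow_mul, ← pow_mul, mul_comm]
        _ ≤ c ^ k := by rw [← hDd]; exact hDle
    exact ((Nat.pow_le_pow_iff_left hk0).mp h1).trans hcN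
  · right
    have h1 : (d ^ p) ^ k ≤ p ^ p * c ^ k := by
      calc (d ^ p) ^ k = (d ^ k) ^ p := by rw [← pow_mul, ← pow_mul, mul_comm]
        _ = p ^ p * D ^ p := by rw [← hpD, mul_pow]
        _ ≤ p ^ p * c ^ k := Nat.mul_le_mul_left _ hDle
    have hpp : 1 ≤ p ^ p := Nat.one_le_pow _ _ (by omega)
    constructor
    · rcases Nat.lt_or_ge k 2 with hk2 | hk2
      · have hk1 : k = 1 := by omega
        have h2 := two_pow_le_diff p y hy (by omega)
        have h3 : (y + 1) ^ p ≤ x ^ p := Nat.pow_le_pow_left hlt p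
        rw [hk1, pow_one] at hE
        have h4 : 2 ^ p ≤ N + 1 := by omega
        have h5 : N + 1 ≤ N ^ 2 := by nlinarith
        omega
      · have hpd' : p ≤ d := Nat.le_of_dvd hd1 hpd
        have h2 : (p ^ p) ^ k ≤ p ^ p * c ^ k :=
          (Nat.pow_le_pow_left (Nat.pow_le_pow_left hpd' p) k).trans h1
        obtain ⟨j, rfl⟩ : ∃ j, k = j + 1 := ⟨k - 1, by omega⟩
        have h3 : (p ^ p) ^ j ≤ c ^ (j + 1) := by
          have h4 : p ^ p * (p ^ p) ^ j ≤ p ^ p * c ^ (j + 1) := by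
            calc p ^ p * (p ^ p) ^ j = (p ^ p) ^ (j + 1) := by rw [pow_succ]; ring
              _ ≤ _ := h2
          exact Nat.le_of_mul_le_mul_left h4 (by omega)
        have h4 : c ^ (j + 1) ≤ (c ^ 2) ^ j := by
          rw [← pow_mul]
          exact Nat.pow_le_pow_right hc (by omega)
        have h5 : p ^ p ≤ c ^ 2 := (Nat.pow_le_pow_iff_left (by omega : j ≠ 0)).mp (h3.trans h4)
        calc 2 ^ p ≤ p ^ p := Nat.pow_le_pow_left (by omega) p
          _ ≤ c ^ 2 := h5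
          _ ≤ N ^ 2 := Nat.pow_le_pow_left hcN 2
    · have h2 : (d ^ p) ^ k ≤ (p ^ p * c) ^ k := by
        calc (d ^ p) ^ k ≤ p ^ p * c ^ k := h1
          _ ≤ (p ^ p) ^ k * c ^ k := Nat.mul_le_mul_right _ (Nat.le_self_pow hk0 _)
          _ = (p ^ p * c) ^ k := by rw [mul_pow]
      exact ((Nat.pow_le_pow_iff_left hk0).mp h2).trans (Nat.mul_le_mul_left _ hcN)

/-- the size of the small factor -/
theorem d_bound (η : ℝ) (p d N : ℕ) (hp3 : 3 ≤ p) (hN : 2 ≤ N) (hd : 1 ≤ d)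
    (hη : Real.log N ^ η < p)
    (h : d ^ p ≤ N ∨ 2 ^ p ≤ N ^ 2 ∧ d ^ p ≤ p ^ p * N) :
    (d : ℝ) ≤ 3 * Real.log N * Real.exp (Real.log N ^ (1 - η)) := by
  have hN0 : (0 : ℝ) < N := by positivity
  have hL2 : Real.log 2 ≤ Real.log N := Real.log_le_log (by norm_num) (by exact_mod_cast hN)
  have hl2 : (0.6931471803 : ℝ) < Real.log 2 := Real.log_two_gt_d9
  have hL : 0 < Real.log N := by linarith
  have hp0 : (0 : ℝ) < p := by positivity
  have hd0 : (0 : ℝ) < d := by positivity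
  have hLp : Real.log N / p ≤ Real.log N ^ (1 - η) := by
    rw [Real.rpow_sub hL, Real.rpow_one]
    exact div_le_div_of_nonneg_left hL.le (Real.rpow_pos_of_pos hL _) hη.le
  have hexp : Real.exp (Real.log N / p) ≤ Real.exp (Real.log N ^ (1 - η)) :=
    Real.exp_le_exp.mpr hLp
  rcases h with h | ⟨h2, h⟩
  · have h1 : Real.log ((d : ℝ) ^ p) ≤ Real.log N :=
      Real.log_le_log (by positivity) (by exact_mod_cast h)
    rw [Real.log_pow] at h1
    have h3 : Real.log d ≤ Real.log N / p := by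
      rw [le_div_iff₀ hp0]; linarith
    have h4 : (d : ℝ) ≤ Real.exp (Real.log N / p) := by
      rw [← Real.log_le_iff_le_exp hd0]; exact h3
    have h5 : 0 < Real.exp (Real.log N ^ (1 - η)) := Real.exp_pos _
    nlinarith
  · have h1 : Real.log ((d : ℝ) ^ p) ≤ Real.log ((p : ℝ) ^ p * N) :=
      Real.log_le_log (by positivity) (by exact_mod_cast h)
    rw [Real.log_pow, Real.log_mul (by positivity) (by positivity), Real.log_pow] at h1
    have h3 : Real.log d ≤ Real.log p + Real.log N / p := by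
      have : Real.log p + Real.log N / p = (p * Real.log p + Real.log N) / p := by
        field_simp
      rw [this, le_div_iff₀ hp0]; linarith
    have h4 : (d : ℝ) ≤ p * Real.exp (Real.log N / p) := by
      have h5 := (Real.log_le_iff_le_exp hd0).mp h3
      rwa [Real.exp_add, Real.exp_log hp0] at h5
    have h6 : (p : ℝ) ≤ 3 * Real.log N := by
      have h7 : Real.log ((2 : ℝ) ^ p) ≤ Real.log ((N : ℝ) ^ 2) :=
        Real.log_le_log (by positivity) (by exact_mod_cast h2)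
      rw [Real.log_pow, Real.log_pow] at h7
      push_cast at h7
      nlinarith
    have h5 : 0 < Real.exp (Real.log N / p) := Real.exp_pos _
    calc (d : ℝ) ≤ p * Real.exp (Real.log N / p) := h4
      _ ≤ 3 * Real.log N * Real.exp (Real.log N ^ (1 - η)) := by
        apply mul_le_mul h6 hexp h5.le (by positivity)

/-- trivial bound for the reciprocals of the integers `1` modulo `p` -/
theorem recip_triv (p z N : ℕ) (hp : 2 ≤ p) :
    ∑ r ∈ (Ioc z N).filter (fun r => r.Prime ∧ r % p = 1), (1 : ℝ) / r ≤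
      (1 + Real.log N) / p := by
  have hp0 : (0 : ℝ) < p := by positivity
  have h1 : ∑ r ∈ (Ioc z N).filter (fun r => r.Prime ∧ r % p = 1), (1 : ℝ) / r ≤
      ∑ m ∈ ((Ioc z N).filter (fun r => r.Prime ∧ r % p = 1)).image (fun r => r / p),
        (1 : ℝ) / (p * m) := by
    rw [Finset.sum_image]
    · apply Finset.sum_le_sum
      intro r hr
      simp only [mem_filter, mem_Ioc] at hr
      obtain ⟨⟨hzr, hrN⟩, hrp, hrm⟩ := hr
      have hdm := Nat.div_add_mod r p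
      rw [hrm] at hdm
      have hr2 := hrp.two_le
      have hq : 1 ≤ r / p := by
        rcases Nat.eq_zero_or_pos (r / p) with h0 | h0
        · rw [h0] at hdm; omega
        · exact h0
      have hpos : (0 : ℝ) < p * (r / p : ℕ) := by positivity
      apply one_div_le_one_div_of_le hpos
      have : p * (r / p) ≤ r := by omega
      exact_mod_cast this
    · intro r hr s hs hrs
      simp only [coe_filter, mem_Ioc, Set.mem_ofPred_eq] at hr hs
      have h1 := Nat.div_add_mod r p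
      have h2 := Nat.div_add_mod s p
      simp only at hrs
      rw [hr.2.2] at h1
      rw [hs.2.2, ← hrs] at h2
      omega
  have h2 : ∑ m ∈ ((Ioc z N).filter (fun r => r.Prime ∧ r % p = 1)).image (fun r => r / p),
        (1 : ℝ) / (p * m) ≤ ∑ m ∈ Finset.Icc 1 N, (1 : ℝ) / (p * m) := by
    apply Finset.sum_le_sum_of_subset_of_nonneg
    · intro m hm
      simp only [mem_image, mem_filter, mem_Ioc] at hm
      obtain ⟨r, ⟨⟨hzr, hrN⟩, hrp, hrm⟩, rfl⟩ := hm
      rw [mem_Icc]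
      have hdm := Nat.div_add_mod r p
      rw [hrm] at hdm
      have hr2 := hrp.two_le
      constructor
      · rcases Nat.eq_zero_or_pos (r / p) with h0 | h0
        · rw [h0] at hdm; omega
        · exact h0
      · exact (Nat.div_le_self r p).trans hrN
    · intro m _ _; positivity
  have h3 : ∑ m ∈ Finset.Icc 1 N, (1 : ℝ) / (p * m) = (1 / p) * ∑ m ∈ Finset.Icc 1 N, (1 : ℝ) / m := by
    rw [Finset.mul_sum]
    apply Finset.sum_congr rfl
    intro m _
    rw [one_div_mul_one_div]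
  have h4 : ∑ m ∈ Finset.Icc 1 N, (1 : ℝ) / m ≤ 1 + Real.log N := by
    have := harmonic_le_one_add_log N
    rw [harmonic_eq_sum_Icc] at this
    push_cast at this
    simpa [one_div] using this
  calc _ ≤ _ := h1
    _ ≤ _ := h2
    _ = (1 / p) * ∑ m ∈ Finset.Icc 1 N, (1 : ℝ) / m := h3
    _ ≤ (1 / p) * (1 + Real.log N) := by
      apply mul_le_mul_of_nonneg_left h4 (by positivity)
    _ = _ := by ring

/-- the number of integers with two large prime factors `1` modulo `p` -/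
theorem count_two (z N K : ℕ) :
    (({c : ℕ | 1 ≤ c ∧ c ≤ N ∧ ∃ p r₁ r₂ : ℕ, K < p ∧ p.Prime ∧ r₁.Prime ∧ r₂.Prime ∧ z < r₁ ∧
      r₁ < r₂ ∧ r₁ * r₂ ∣ c ∧ r₁ % p = 1 ∧ r₂ % p = 1}.ncard : ℕ) : ℝ) ≤
      N * ∑ p ∈ (Ioo K (N + 1)).filter (fun p => p.Prime),
        (∑ r ∈ (Ioc z N).filter (fun r => r.Prime ∧ r % p = 1), (1 : ℝ) / r) ^ 2 := by
  classical
  set R : ℕ → Finset ℕ := fun p => (Ioc z N).filter (fun r => r.Prime ∧ r % p = 1) with hR
  set P := (Ioo K (N + 1)).filter (fun p => p.Prime) with hP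
  have hsub : {c : ℕ | 1 ≤ c ∧ c ≤ N ∧ ∃ p r₁ r₂ : ℕ, K < p ∧ p.Prime ∧ r₁.Prime ∧ r₂.Prime ∧
      z < r₁ ∧ r₁ < r₂ ∧ r₁ * r₂ ∣ c ∧ r₁ % p = 1 ∧ r₂ % p = 1} ⊆
      ((P.biUnion (fun p => (R p ×ˢ R p).biUnion
        (fun rr => (Ioc 0 N).filter (fun c => rr.1 * rr.2 ∣ c))) : Finset ℕ) : Set ℕ) := by
    rintro c ⟨hc1, hcN, p, r₁, r₂, hKp, hp2, hr1, hr2, hz, h12, hdvd, hm1, hm2⟩
    have hle : r₁ * r₂ ≤ N := (Nat.le_of_dvd (by omega) hdvd).trans hcN
    have h1 := hr1.two_le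
    have h2 := hr2.two_le
    have hr1N : r₁ ≤ N := by nlinarith
    have hr2N : r₂ ≤ N := by nlinarith
    have hpN : p ≤ N := by
      by_contra hlt
      push Not at hlt
      have : r₁ % p = r₁ := Nat.mod_eq_of_lt (by omega)
      omega
    simp only [coe_biUnion, Set.mem_iUnion, coe_filter, mem_Ioc, Set.mem_ofPred_eq, mem_coe,
      mem_product, exists_prop, Prod.exists]
    refine ⟨p, ?_, r₁, r₂, ⟨?_, ?_⟩, ⟨by omega, hcN⟩, hdvd⟩
    · rw [hP, mem_filter, mem_Ioo]; exact ⟨⟨hKp, by omega⟩, hp2⟩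
    · simp only [hR, mem_filter, mem_Ioc]; exact ⟨⟨hz, hr1N⟩, hr1, hm1⟩
    · simp only [hR, mem_filter, mem_Ioc]; exact ⟨⟨by omega, hr2N⟩, hr2, hm2⟩
  have hcard : {c : ℕ | 1 ≤ c ∧ c ≤ N ∧ ∃ p r₁ r₂ : ℕ, K < p ∧ p.Prime ∧ r₁.Prime ∧ r₂.Prime ∧
      z < r₁ ∧ r₁ < r₂ ∧ r₁ * r₂ ∣ c ∧ r₁ % p = 1 ∧ r₂ % p = 1}.ncard ≤
      ∑ p ∈ P, ∑ rr ∈ R p ×ˢ R p, N / (rr.1 * rr.2) := by
    refine (Set.ncard_le_ncard hsub (Finset.finite_toSet _)).trans ?_
    rw [Set.ncard_coe_finset]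
    refine Finset.card_biUnion_le.trans (Finset.sum_le_sum fun p _ => ?_)
    refine Finset.card_biUnion_le.trans (Finset.sum_le_sum fun rr _ => ?_)
    rw [Nat.Ioc_filter_dvd_card_eq_div]
  have hcast : ((∑ p ∈ P, ∑ rr ∈ R p ×ˢ R p, N / (rr.1 * rr.2) : ℕ) : ℝ) ≤
      N * ∑ p ∈ P, (∑ r ∈ R p, (1 : ℝ) / r) ^ 2 := by
    push_cast
    rw [Finset.mul_sum]
    apply Finset.sum_le_sum
    intro p _
    rw [sq, Finset.sum_mul_sum, ← Finset.sum_product', Finset.mul_sum]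
    apply Finset.sum_le_sum
    intro rr hrr
    have h1 : ((N / (rr.1 * rr.2) : ℕ) : ℝ) ≤ (N : ℝ) / ((rr.1 * rr.2 : ℕ) : ℝ) := Nat.cast_div_le
    calc ((N / (rr.1 * rr.2) : ℕ) : ℝ) ≤ (N : ℝ) / ((rr.1 * rr.2 : ℕ) : ℝ) := h1
      _ = _ := by
        push_cast
        rw [one_div_mul_one_div, mul_one_div]
  calc _ ≤ ((∑ p ∈ P, ∑ rr ∈ R p ×ˢ R p, N / (rr.1 * rr.2) : ℕ) : ℝ) := by exact_mod_cast hcard
    _ ≤ _ := hcast

/-- the sum over the primes `p` -/
theorem sum_p (C : ℝ) (hC : 1 ≤ C) (z N K : ℕ) (hz : 3 ≤ z) (hzN : z ≤ N)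
    (hB : ∀ p z N : ℕ, p.Prime → 3 ≤ z → p ^ 2 ≤ z → z ≤ N →
      ∑ r ∈ (Ioc z N).filter (fun r => r.Prime ∧ r % p = 1), (1 : ℝ) / r ≤
        C * (1 + Real.log (1 + Real.log N)) / p) :
    ∑ p ∈ (Ioo K (N + 1)).filter (fun p => p.Prime),
        (∑ r ∈ (Ioc z N).filter (fun r => r.Prime ∧ r % p = 1), (1 : ℝ) / r) ^ 2 ≤
      (C * (1 + Real.log (1 + Real.log N))) ^ 2 * (2 / ((K : ℝ) + 1)) +
        (1 + Real.log N) ^ 2 * (2 / ((Nat.sqrt z : ℝ) + 1)) := by
  have hN1 : 1 ≤ N := by omega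
  have hL0 : 0 ≤ Real.log N := Real.log_nonneg (by exact_mod_cast hN1)
  have hLL : 0 ≤ Real.log (1 + Real.log N) := Real.log_nonneg (by linarith)
  rw [← Finset.sum_filter_add_sum_filter_not _ (fun p => p ^ 2 ≤ z)]
  apply add_le_add
  · calc _ ≤ ∑ p ∈ ((Ioo K (N + 1)).filter (fun p => p.Prime)).filter (fun p => p ^ 2 ≤ z),
        (C * (1 + Real.log (1 + Real.log N))) ^ 2 * ((p : ℝ) ^ 2)⁻¹ := by
          apply Finset.sum_le_sum
          intro p hp
          simp only [mem_filter, mem_Ioo] at hp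
          have h1 := hB p z N hp.1.2 hz hp.2 hzN
          have hp0 : (0 : ℝ) < p := by exact_mod_cast hp.1.2.pos
          have h2 : 0 ≤ ∑ r ∈ (Ioc z N).filter (fun r => r.Prime ∧ r % p = 1), (1 : ℝ) / r :=
            Finset.sum_nonneg fun r _ => by positivity
          calc _ ≤ (C * (1 + Real.log (1 + Real.log N)) / p) ^ 2 := pow_le_pow_left₀ h2 h1 2
            _ = _ := by rw [div_pow]; rfl
      _ ≤ ∑ p ∈ Ioo K (N + 1), (C * (1 + Real.log (1 + Real.log N))) ^ 2 * ((p : ℝ) ^ 2)⁻¹ := by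
          apply Finset.sum_le_sum_of_subset_of_nonneg
          · exact (Finset.filter_subset _ _).trans (Finset.filter_subset _ _)
          · intro p _ _; positivity
      _ ≤ _ := by
          rw [← Finset.mul_sum]
          exact mul_le_mul_of_nonneg_left (sum_Ioo_inv_sq_le K (N + 1)) (by positivity)
  · calc _ ≤ ∑ p ∈ ((Ioo K (N + 1)).filter (fun p => p.Prime)).filter (fun p => ¬ p ^ 2 ≤ z),
        (1 + Real.log N) ^ 2 * ((p : ℝ) ^ 2)⁻¹ := by
          apply Finset.sum_le_sum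
          intro p hp
          simp only [mem_filter, mem_Ioo] at hp
          have h1 := recip_triv p z N hp.1.2.two_le
          have hp0 : (0 : ℝ) < p := by exact_mod_cast hp.1.2.pos
          have h2 : 0 ≤ ∑ r ∈ (Ioc z N).filter (fun r => r.Prime ∧ r % p = 1), (1 : ℝ) / r :=
            Finset.sum_nonneg fun r _ => by positivity
          calc _ ≤ ((1 + Real.log N) / p) ^ 2 := pow_le_pow_left₀ h2 h1 2
            _ = _ := by rw [div_pow]; rfl
      _ ≤ ∑ p ∈ Ioo (Nat.sqrt z) (N + 1), (1 + Real.log N) ^ 2 * ((p : ℝ) ^ 2)⁻¹ := by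
          apply Finset.sum_le_sum_of_subset_of_nonneg
          · intro p hp
            simp only [mem_filter, mem_Ioo] at hp
            rw [mem_Ioo]
            refine ⟨?_, hp.1.1.2⟩
            rw [Nat.sqrt_lt']
            omega
          · intro p _ _; positivity
      _ ≤ _ := by
          rw [← Finset.mul_sum]
          exact mul_le_mul_of_nonneg_left (sum_Ioo_inv_sq_le (Nat.sqrt z) (N + 1)) (by positivity)

end Pool.Agent.Work.MP_2738db_nt_ZZ.helper15
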